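import Pool.Agent.X29.RW.Walk

set_option autoImplicit false

/-! # Random walks and record gaps between primes: conclusion -/

namespace Pool.Agent.X29.RW

open Finset MeasureTheory Filter ProbabilityTheory
open Pool.Agent.H469R2.NK (e norm_e e_add e_zero)
open Pool.Agent.W147.PS (ff ff_compare ev_pow)
open Pool.Agent.X29.EV (e_meas integersF)

/-- **Random walks.** -/
theorem walks (d r : ℕ) (hd : 1 ≤ d) (hr : 1 ≤ r) (η : ℝ) (h0 : 0 < η) (h1 : η ≤ 1) :
    ∃ κ : ℝ, 0 < κ ∧ ∀ (Ω : Type) (_ : MeasurableSpace Ω) (μ : Measure Ω), IsProbabilityMeasure μ →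
    ∀ X : ℕ → Ω → Fin d → ℤ, (∀ i, Measurable (X i)) → iIndepFun X μ →
    (∀ i, μ.map (X i) = μ.map (X 0)) →
    AddSubgroup.closure {z : Fin d → ℤ | ∃ x y : Fin d → ℤ, 0 < μ.real {ω | X 0 ω = x} ∧
      0 < μ.real {ω | X 0 ω = y} ∧ z = x - y} = ⊤ →
    ∀ᶠ M : ℝ in atTop, ∀ t : Fin r → ℕ, (∀ k, M ^ η ≤ t k) →
      (∀ k l, k < l → t k + M ^ η ≤ t l) →
      M ^ (-η) ≤ μ.real {x | ∀ k j, ∀ p : ℕ, p.Prime →
        κ * ff M < |(p : ℝ) - ((∑ i ∈ range (t k), X i x j : ℤ) : ℝ)|} := by
  classical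
  obtain ⟨κ, hκ, hc⟩ := integersF (r * d) (Nat.mul_pos hr hd) (η / 4) (by linarith) (by linarith)
  refine ⟨κ, hκ, ?_⟩
  intro Ω _ μ hμ X hX hind hid hgen
  obtain ⟨c, hc0, hcf⟩ := cf_gen μ (X 0) (hX 0) hgen
  have hlog : ∀ᶠ M : ℝ in atTop, η / 4 * Real.log M ≤ c * M ^ (η / 2) := by
    have h2 := (isLittleO_log_rpow_atTop (show (0 : ℝ) < η / 2 by linarith)).def
      (show (0 : ℝ) < c / (η / 4) by positivity)
    filter_upwards [h2, eventually_ge_atTop 1] with M hM hM1
    rw [Real.norm_of_nonneg (Real.log_nonneg hM1),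
      Real.norm_of_nonneg (Real.rpow_nonneg (by linarith) _)] at hM
    calc η / 4 * Real.log M ≤ η / 4 * (c / (η / 4) * M ^ (η / 2)) :=
          mul_le_mul_of_nonneg_left hM (by positivity)
      _ = c * M ^ (η / 2) := by field_simp
  filter_upwards [hc, hlog, eventually_ge_atTop (1 : ℝ)] with M hcM hlogM hM1
  intro t ht htt
  have hM0 : 0 < M := by linarith
  have hmono : ∀ x y : ℝ, x ≤ y → M ^ x ≤ M ^ y := fun x y h =>
    Real.rpow_le_rpow_of_exponent_le hM1 h
  obtain ⟨V, hV⟩ : ∃ V : Ω → Fin (r * d) → ℤ, V = fun x m =>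
    ∑ i ∈ range (t (finProdFinEquiv.symm m).1), X i x (finProdFinEquiv.symm m).2 := ⟨_, rfl⟩
  have hVm : Measurable V := by
    rw [hV]
    refine measurable_pi_lambda _ fun m => ?_
    refine Finset.measurable_sum _ fun i _ => ?_
    exact (measurable_pi_apply _).comp (hX i)
  have hE0 : 0 ≤ M ^ (-(η / 4)) := Real.rpow_nonneg hM0.le _
  have key := hcM Ω _ μ hμ V hVm (by
    intro q hq hqM ρ
    refine charZ μ V hVm q hq _ ?_ hE0 ρ
    intro H hH hHq
    have hq0 : (0 : ℝ) < q := by exact_mod_cast hq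
    obtain ⟨H', hH'⟩ : ∃ H' : Fin r → Fin d → ℕ, H' = fun k j => H (finProdFinEquiv (k, j)) := ⟨_, rfl⟩
    obtain ⟨T, hT⟩ : ∃ T : ℕ, T = ∑ k, t k := ⟨_, rfl⟩
    have htT : ∀ k, t k ≤ T := by
      intro k
      rw [hT]
      exact single_le_sum (f := t) (fun _ _ => Nat.zero_le _) (mem_univ k)
    obtain ⟨g, hg⟩ : ∃ g : ℕ → Fin d → ℤ, g = fun i j => ∑ k, if i < t k then (H' k j : ℤ) else 0 :=
      ⟨_, rfl⟩
    have hsum : ∀ x, ∑ m, (H m : ℝ) * ((V x m : ℝ) / q) =
        ∑ i ∈ range T, ∑ j, (g i j : ℝ) * ((X i x j : ℝ) / q) := by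
      intro x
      have e1 : ∑ m, (H m : ℝ) * ((V x m : ℝ) / q) =
          ∑ k, ∑ j, (H' k j : ℝ) * (((∑ i ∈ range (t k), X i x j : ℤ) : ℝ) / q) := by
        rw [← Equiv.sum_comp finProdFinEquiv, Fintype.sum_prod_type]
        refine sum_congr rfl fun k _ => sum_congr rfl fun j _ => ?_
        rw [hV, hH']
        simp only [Equiv.symm_apply_apply]
      rw [e1]
      have e2 : ∀ k j, (H' k j : ℝ) * (((∑ i ∈ range (t k), X i x j : ℤ) : ℝ) / q) =
          ∑ i ∈ range T, (if i < t k then (H' k j : ℝ) else 0) * ((X i x j : ℝ) / q) := by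
        intro k j
        push_cast
        rw [sum_div, mul_sum]
        have e3 : range (t k) = (range T).filter (fun i => i < t k) := by
          ext i
          rw [mem_filter, mem_range, mem_range]
          have := htT k
          omega
        rw [e3, sum_filter]
        refine sum_congr rfl fun i _ => ?_
        split_ifs <;> simp
      simp only [e2]
      rw [sum_congr rfl fun k _ => sum_comm, sum_comm]
      refine sum_congr rfl fun i _ => ?_
      rw [sum_comm]
      refine sum_congr rfl fun j _ => ?_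
      rw [← sum_mul]
      congr 1
      rw [hg]
      push_cast
      refine sum_congr rfl fun k _ => ?_
      split_ifs <;> simp
    simp only [hsum]
    rw [cf_prod μ X hX hind hid q T g, norm_prod]
    -- the last nonzero block
    have hex : ∃ k, ∃ j, H' k j ≠ 0 := by
      by_contra hcon
      push Not at hcon
      apply hH
      funext m
      have := hcon (finProdFinEquiv.symm m).1 (finProdFinEquiv.symm m).2
      have h2 : H' (finProdFinEquiv.symm m).1 (finProdFinEquiv.symm m).2 = H m := by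
        rw [hH']
        show H (finProdFinEquiv ((finProdFinEquiv.symm m).1, (finProdFinEquiv.symm m).2)) = H m
        rw [Prod.mk.eta, Equiv.apply_symm_apply]
      rw [← h2]
      exact this
    obtain ⟨k, hk, hkmax⟩ : ∃ k, (∃ j, H' k j ≠ 0) ∧ ∀ l, k < l → ∀ j, H' l j = 0 := by
      obtain ⟨k, hk⟩ := (Finset.univ.filter (fun k => ∃ j, H' k j ≠ 0)).exists_maximal (by
        obtain ⟨k, hk⟩ := hex
        exact ⟨k, mem_filter.2 ⟨mem_univ k, hk⟩⟩)
      refine ⟨k, (mem_filter.1 hk.prop).2, fun l hl j => ?_⟩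
      by_contra hne
      have h2 := hk.le_of_ge (mem_filter.2 ⟨mem_univ l, ⟨j, hne⟩⟩) hl.le
      exact absurd hl (not_lt.2 h2)
    obtain ⟨m, hm⟩ : ∃ m : ℕ, m = (univ.filter (fun l : Fin r => l < k)).sup t := ⟨_, rfl⟩
    have hml : ∀ l, l < k → t l ≤ m := by
      intro l hl
      rw [hm]
      exact le_sup (f := t) (mem_filter.2 ⟨mem_univ l, hl⟩)
    have hmk : (m : ℝ) + M ^ η ≤ t k := by
      rcases (univ.filter (fun l : Fin r => l < k)).eq_empty_or_nonempty with hem | hne
      · rw [hm, hem, sup_empty]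
        have := ht k
        simpa using this
      · obtain ⟨l, hl, hl2⟩ := exists_mem_eq_sup _ hne t
        rw [hm, hl2]
        exact htt l k (mem_filter.1 hl).2
    have hmk' : m ≤ t k := by
      have h2 : (0 : ℝ) ≤ M ^ η := Real.rpow_nonneg hM0.le _
      have h3 : (m : ℝ) ≤ t k := by linarith
      exact_mod_cast h3
    have hblock : ∀ i ∈ Ico m (t k), ‖cf μ (X 0) q (g i)‖ ≤ Real.exp (-(c / (q : ℝ) ^ 2)) := by
      intro i hi
      rw [mem_Ico] at hi
      obtain ⟨j, hj⟩ := hk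
      have hgi : g i j = H' k j := by
        rw [hg]
        show (∑ l, if i < t l then (H' l j : ℤ) else 0) = H' k j
        rw [Finset.sum_eq_single k]
        · rw [if_pos hi.2]
        · intro l _ hlk
          rcases lt_or_gt_of_ne hlk with hlt | hgt
          · have := hml l hlt
            rw [if_neg (by omega)]
          · rw [hkmax l hgt j]
            simp
        · simp
      have h2 := hcf q hq (g i) ⟨j, by
        rw [hgi]
        intro hdvd
        have h3 : q ∣ H' k j := by exact_mod_cast hdvd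
        have h4 : H' k j < q := by rw [hH']; exact hHq _
        exact hj (Nat.eq_zero_of_dvd_of_lt h3 h4)⟩
      refine h2.trans ?_
      have := Real.add_one_le_exp (-(c / (q : ℝ) ^ 2))
      linarith
    have hone : ∀ i, ‖cf μ (X 0) q (g i)‖ ≤ 1 := by
      intro i
      unfold cf
      refine (norm_integral_le_of_norm_le_const (C := 1) (Filter.Eventually.of_forall
        fun x => (norm_e _).le)).trans ?_
      rw [probReal_univ, mul_one]
    have hsub : Ico m (t k) ⊆ range T := by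
      intro i hi
      rw [mem_Ico] at hi
      rw [mem_range]
      have := htT k
      omega
    have hprod : ∏ i ∈ range T, ‖cf μ (X 0) q (g i)‖ ≤ ∏ i ∈ Ico m (t k), ‖cf μ (X 0) q (g i)‖ := by
      rw [← prod_sdiff hsub]
      refine mul_le_of_le_one_left (prod_nonneg fun i _ => norm_nonneg _) ?_
      exact prod_le_one (fun i _ => norm_nonneg _) fun i _ => hone i
    refine hprod.trans ((prod_le_prod (fun i _ => norm_nonneg _) hblock).trans ?_)
    rw [prod_const, Nat.card_Ico, ← Real.exp_nat_mul, Real.rpow_def_of_pos hM0]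
    apply Real.exp_le_exp.2
    have h5 : M ^ η ≤ ((t k - m : ℕ) : ℝ) := by
      rw [Nat.cast_sub hmk']
      linarith
    have h6 : (q : ℝ) ^ 2 ≤ M ^ (η / 2) := by
      have h7 := pow_le_pow_left₀ hq0.le hqM 2
      rw [← Real.rpow_natCast (M ^ (η / 4)), ← Real.rpow_mul hM0.le] at h7
      refine h7.trans (le_of_eq ?_)
      congr 1
      push_cast
      ring
    have h7 : 0 < (q : ℝ) ^ 2 := by positivity
    have h8 : c * M ^ (η / 2) ≤ ((t k - m : ℕ) : ℝ) * (c / (q : ℝ) ^ 2) := by
      have h9 : M ^ (η / 2) * (q : ℝ) ^ 2 ≤ M ^ η := by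
        calc M ^ (η / 2) * (q : ℝ) ^ 2 ≤ M ^ (η / 2) * M ^ (η / 2) :=
              mul_le_mul_of_nonneg_left h6 (Real.rpow_nonneg hM0.le _)
          _ = M ^ η := by rw [← Real.rpow_add hM0]; congr 1; ring
      rw [mul_div_assoc', le_div_iff₀ h7]
      calc c * M ^ (η / 2) * (q : ℝ) ^ 2 = c * (M ^ (η / 2) * (q : ℝ) ^ 2) := by ring
        _ ≤ c * ((t k - m : ℕ) : ℝ) := mul_le_mul_of_nonneg_left (h9.trans h5) hc0.le
        _ = _ := by ring
    calc ((t k - m : ℕ) : ℝ) * -(c / (q : ℝ) ^ 2) = -(((t k - m : ℕ) : ℝ) * (c / (q : ℝ) ^ 2)) := by ring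
      _ ≤ -(η / 4 * Real.log M) := by linarith
      _ = Real.log M * -(η / 4) := by ring)
  refine (hmono _ _ (by linarith)).trans (key.trans (measureReal_mono ?_))
  intro x hx k j p hp
  have h2 := hx (finProdFinEquiv (k, j)) p hp
  rw [hV] at h2
  simp only [Equiv.symm_apply_apply] at h2
  exact h2

end Pool.Agent.X29.RW
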