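import Pool.Agent.X29.EV.Free

set_option autoImplicit false

/-! # Random walks and record gaps between primes -/

namespace Pool.Agent.X29.RW

open Finset MeasureTheory Filter ProbabilityTheory
open Pool.Agent.H469R2.NK (e norm_e e_add e_zero)
open Pool.Agent.W147.PS (ff ff_compare ev_pow)
open Pool.Agent.X29.EV (e_meas integersF)

lemma e_int (n : ℤ) : e n = 1 := by
  unfold e
  rw [Complex.exp_eq_one_iff]
  exact ⟨n, by push_cast; ring⟩

lemma e_sum {J : Type} (s : Finset J) (f : J → ℝ) : e (∑ j ∈ s, f j) = ∏ j ∈ s, e (f j) := by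
  classical
  induction s using Finset.induction_on with
  | empty => simp [e_zero]
  | insert a s ha ih => rw [Finset.sum_insert ha, Finset.prod_insert ha, e_add, ih]

/-- orthogonality -/
lemma orth (q : ℕ) (hq : 1 ≤ q) (n : ℤ) :
    ∑ h ∈ range q, e ((h : ℝ) * (n / q)) = if (q : ℤ) ∣ n then (q : ℂ) else 0 := by
  have hq0 : (q : ℝ) ≠ 0 := by exact_mod_cast (by omega : q ≠ 0)
  split_ifs with hd
  · obtain ⟨k, rfl⟩ := hd
    have h1 : ∀ h ∈ range q, e ((h : ℝ) * (((q : ℤ) * k : ℤ) / q)) = 1 := by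
      intro h _
      have : (h : ℝ) * ((((q : ℤ) * k : ℤ) : ℝ) / q) = (((h : ℤ) * k : ℤ) : ℝ) := by
        push_cast
        field_simp
      rw [this, e_int]
    rw [sum_congr rfl h1]
    simp
  · have hz : ∀ h : ℕ, e ((h : ℝ) * (n / q)) = e ((n : ℝ) / q) ^ h := by
      intro h
      induction h with
      | zero => simp [e_zero]
      | succ h ih => rw [pow_succ, ← ih, ← e_add]; congr 1; push_cast; ring
    have hz1 : e ((n : ℝ) / q) ≠ 1 := by
      intro h1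
      unfold e at h1
      rw [Complex.exp_eq_one_iff] at h1
      obtain ⟨m, hm⟩ := h1
      apply hd
      refine ⟨m, ?_⟩
      have h2 : (2 * Real.pi * ((n : ℝ) / q) : ℝ) = (m : ℝ) * (2 * Real.pi) := by
        have h3 : ((2 * Real.pi * ((n : ℝ) / q) : ℝ) : ℂ) = (((m : ℝ) * (2 * Real.pi) : ℝ) : ℂ) := by
          have h4 := mul_right_cancel₀ Complex.I_ne_zero
            (show ((2 * Real.pi * ((n : ℝ) / q) : ℝ) : ℂ) * Complex.I =
              (((m : ℝ) * (2 * Real.pi) : ℝ) : ℂ) * Complex.I by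
              rw [hm]; push_cast; ring)
          exact h4
        exact_mod_cast h3
      have h5 : (n : ℝ) / q = m := by
        have hpi := Real.pi_pos
        have : 2 * Real.pi * ((n : ℝ) / q) = 2 * Real.pi * m := by rw [h2]; ring
        exact mul_left_cancel₀ (by positivity) this
      rw [div_eq_iff hq0] at h5
      have h6 : (n : ℝ) = ((q : ℤ) * m : ℤ) := by rw [h5]; push_cast; ring
      exact_mod_cast h6
    have hzq : e ((n : ℝ) / q) ^ q = 1 := by
      rw [← hz]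
      have : (q : ℝ) * ((n : ℝ) / q) = (n : ℤ) := by field_simp
      rw [this, e_int]
    rw [sum_congr rfl fun h _ => hz h, geom_sum_eq hz1, hzq, sub_self, zero_div]

/-- the distribution modulo `q` from the characteristic function -/
theorem charZ {Ω : Type} [MeasurableSpace Ω] (μ : Measure Ω) [IsProbabilityMeasure μ] {R : ℕ}
    (V : Ω → Fin R → ℤ) (hV : Measurable V) (q : ℕ) (hq : 1 ≤ q) (E : ℝ)
    (hE : ∀ H : Fin R → ℕ, H ≠ 0 → (∀ j, H j < q) →
      ‖∫ x, e (∑ j, (H j : ℝ) * ((V x j : ℝ) / q)) ∂μ‖ ≤ E) (hE0 : 0 ≤ E) (ρ : Fin R → ℤ) :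
    |μ.real {x | ∀ j, (q : ℤ) ∣ V x j - ρ j} - 1 / (q : ℝ) ^ R| ≤ E := by
  classical
  have hq0 : (0 : ℝ) < q := by exact_mod_cast hq
  obtain ⟨Φ, hΦ⟩ : ∃ Φ : Finset (Fin R → ℕ), Φ = Fintype.piFinset (fun _ => range q) := ⟨_, rfl⟩
  have hmem : ∀ H, H ∈ Φ ↔ ∀ j, H j < q := by
    intro H
    rw [hΦ, Fintype.mem_piFinset]
    simp only [mem_range]
  have hcard : Φ.card = q ^ R := by
    rw [hΦ, Fintype.card_piFinset]
    simp
  obtain ⟨S, hS⟩ : ∃ S : Set Ω, S = {x | ∀ j, (q : ℤ) ∣ V x j - ρ j} := ⟨_, rfl⟩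
  have hSm : MeasurableSet S := by
    have : S = V ⁻¹' {v | ∀ j, (q : ℤ) ∣ v j - ρ j} := by rw [hS]; rfl
    rw [this]
    exact hV (Set.to_countable _).measurableSet
  have hind : ∀ x, S.indicator (fun _ => (1 : ℂ)) x =
      (1 / (q : ℂ) ^ R) * ∑ H ∈ Φ, e (∑ j, (H j : ℝ) * (((V x j - ρ j : ℤ) : ℝ) / q)) := by
    intro x
    have h1 : ∑ H ∈ Φ, e (∑ j, (H j : ℝ) * (((V x j - ρ j : ℤ) : ℝ) / q)) =
        ∏ j, ∑ h ∈ range q, e ((h : ℝ) * (((V x j - ρ j : ℤ) : ℝ) / q)) := by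
      rw [Finset.prod_univ_sum, ← hΦ]
      exact sum_congr rfl fun H _ => e_sum _ _
    rw [h1]
    rw [prod_congr rfl fun j _ => orth q hq (V x j - ρ j)]
    have hqc : (q : ℂ) ≠ 0 := by exact_mod_cast (by omega : q ≠ 0)
    by_cases hx : x ∈ S
    · rw [Set.indicator_of_mem hx]
      have hx' : ∀ j, (q : ℤ) ∣ V x j - ρ j := by rw [hS] at hx; exact hx
      rw [prod_congr rfl fun j _ => if_pos (hx' j), prod_const, card_univ, Fintype.card_fin]
      field_simp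
    · rw [Set.indicator_of_notMem hx]
      have hx' : ¬ ∀ j, (q : ℤ) ∣ V x j - ρ j := by rw [hS] at hx; exact hx
      push Not at hx'
      obtain ⟨j, hj⟩ := hx'
      rw [prod_eq_zero (mem_univ j) (if_neg hj), mul_zero]
  have hm : ∀ H : Fin R → ℕ, Measurable (fun x => e (∑ j, (H j : ℝ) * ((V x j : ℝ) / q))) := fun H =>
    (measurable_of_countable (fun v : Fin R → ℤ => e (∑ j, (H j : ℝ) * ((v j : ℝ) / q)))).comp hV
  have hi : ∀ H : Fin R → ℕ, Integrable (fun x => e (∑ j, (H j : ℝ) * ((V x j : ℝ) / q))) μ := fun H =>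
    Integrable.of_bound (C := 1) (hm H).aestronglyMeasurable
      (Filter.Eventually.of_forall fun x => (norm_e _).le)
  have hsplit : ∀ (H : Fin R → ℕ) x, e (∑ j, (H j : ℝ) * (((V x j - ρ j : ℤ) : ℝ) / q)) =
      e (-∑ j, (H j : ℝ) * ((ρ j : ℝ) / q)) * e (∑ j, (H j : ℝ) * ((V x j : ℝ) / q)) := by
    intro H x
    rw [← e_add]
    congr 1
    rw [← sum_neg_distrib, ← sum_add_distrib]
    refine sum_congr rfl fun j _ => ?_
    push_cast
    ring
  have hint : (μ.real S : ℂ) = (1 / (q : ℂ) ^ R) * ∑ H ∈ Φ, e (-∑ j, (H j : ℝ) * ((ρ j : ℝ) / q)) *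
      ∫ x, e (∑ j, (H j : ℝ) * ((V x j : ℝ) / q)) ∂μ := by
    have h1 : ∫ x, S.indicator (fun _ => (1 : ℂ)) x ∂μ = (μ.real S : ℂ) := by
      rw [integral_indicator_const _ hSm, Complex.real_smul, mul_one]
    rw [← h1]
    simp only [hind, hsplit]
    rw [integral_const_mul, integral_finsetSum _ fun H _ => (hi H).const_mul _]
    congr 1
    exact sum_congr rfl fun H _ => integral_const_mul _ _
  have h0mem : (0 : Fin R → ℕ) ∈ Φ := by
    rw [hmem]
    intro j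
    exact hq
  rw [← add_sum_erase _ _ h0mem] at hint
  have hz : e (-∑ j, (((0 : Fin R → ℕ) j : ℕ) : ℝ) * ((ρ j : ℝ) / q)) *
      ∫ x, e (∑ j, (((0 : Fin R → ℕ) j : ℕ) : ℝ) * ((V x j : ℝ) / q)) ∂μ = 1 := by
    simp only [Pi.zero_apply, Nat.cast_zero, zero_mul, sum_const_zero, neg_zero, e_zero, one_mul]
    rw [integral_const, probReal_univ, one_smul]
  rw [hz] at hint
  have hfin : ((μ.real S - 1 / (q : ℝ) ^ R : ℝ) : ℂ) = (1 / (q : ℂ) ^ R) *
      ∑ H ∈ Φ.erase 0, e (-∑ j, (H j : ℝ) * ((ρ j : ℝ) / q)) *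
        ∫ x, e (∑ j, (H j : ℝ) * ((V x j : ℝ) / q)) ∂μ := by
    push_cast
    rw [hint]
    ring
  have hn : ‖((μ.real S - 1 / (q : ℝ) ^ R : ℝ) : ℂ)‖ ≤ E := by
    rw [hfin, norm_mul]
    have h1 : ‖(1 : ℂ) / (q : ℂ) ^ R‖ = 1 / (q : ℝ) ^ R := by simp
    rw [h1]
    have h2 : ‖∑ H ∈ Φ.erase 0, e (-∑ j, (H j : ℝ) * ((ρ j : ℝ) / q)) *
        ∫ x, e (∑ j, (H j : ℝ) * ((V x j : ℝ) / q)) ∂μ‖ ≤ (q : ℝ) ^ R * E := by
      refine (norm_sum_le _ _).trans ?_
      refine (sum_le_sum (g := fun _ => E) fun H hH => ?_).trans ?_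
      · rw [norm_mul, norm_e, one_mul]
        exact hE H (ne_of_mem_erase hH) ((hmem H).1 (mem_of_mem_erase hH))
      · rw [sum_const, nsmul_eq_mul]
        refine mul_le_mul_of_nonneg_right ?_ hE0
        have h3 : ((Φ.erase 0).card : ℝ) ≤ Φ.card := by exact_mod_cast card_le_card (erase_subset _ _)
        rw [hcard] at h3
        exact_mod_cast h3
    calc 1 / (q : ℝ) ^ R * _ ≤ 1 / (q : ℝ) ^ R * ((q : ℝ) ^ R * E) :=
          mul_le_mul_of_nonneg_left h2 (by positivity)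
      _ = E := by field_simp
  rw [Complex.norm_real, Real.norm_eq_abs] at hn
  rw [← hS]
  exact hn

end Pool.Agent.X29.RW
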