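import Pool.Agent.X29.RW.Main

set_option autoImplicit false

/-! # Random walks and record gaps between primes: the walk -/

namespace Pool.Agent.X29.RW

open Finset MeasureTheory Filter ProbabilityTheory
open Pool.Agent.H469R2.NK (e norm_e e_add e_zero)
open Pool.Agent.W147.PS (ff ff_compare ev_pow)
open Pool.Agent.X29.EV (e_meas integersF)

/-- the characteristic function of a random vector at `g / q` -/
noncomputable def cf {Ω : Type} [MeasurableSpace Ω] (μ : Measure Ω) {d : ℕ} (X : Ω → Fin d → ℤ)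
    (q : ℕ) (g : Fin d → ℤ) : ℂ := ∫ x, e (∑ j, (g j : ℝ) * ((X x j : ℝ) / q)) ∂μ

lemma cos_bound (q : ℕ) (hq : 1 ≤ q) (n : ℤ) (hn : ¬ (q : ℤ) ∣ n) :
    Real.cos (2 * Real.pi * ((n : ℝ) / q)) ≤ 1 - 8 / (q : ℝ) ^ 2 := by
  have hq0 : (0 : ℝ) < q := by exact_mod_cast hq
  obtain ⟨k, hk⟩ : ∃ k : ℤ, k = Int.bmod n q := ⟨_, rfl⟩
  have h1 : (q : ℤ) ∣ n - k := by rw [hk]; exact Int.dvd_self_sub_bmod
  obtain ⟨m, hm⟩ := h1
  have hk0 : k ≠ 0 := by
    rintro rfl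
    apply hn
    exact ⟨m, by linarith⟩
  have hk1 : 2 * |k| ≤ q := by
    have a1 := Int.le_bmod (x := n) (m := q) (by omega)
    have a2 := Int.bmod_le (x := n) (m := q) (by omega)
    rw [← hk] at a1 a2
    rcases abs_cases k with ⟨h, _⟩ | ⟨h, _⟩ <;> rw [h] <;> omega
  have hkr : 2 * |(k : ℝ)| ≤ q := by exact_mod_cast hk1
  have hk2 : (1 : ℝ) ≤ |(k : ℝ)| := by exact_mod_cast Int.one_le_abs hk0
  have e1 : 2 * Real.pi * ((n : ℝ) / q) = 2 * Real.pi * ((k : ℝ) / q) + m * (2 * Real.pi) := by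
    have : (n : ℝ) = k + q * m := by
      have h2 : n = k + q * m := by linarith
      exact_mod_cast h2
    rw [this]
    field_simp
  rw [e1, Real.cos_add_int_mul_two_pi]
  have hpi := Real.pi_pos
  have h2 : |2 * Real.pi * ((k : ℝ) / q)| ≤ Real.pi := by
    rw [abs_mul, abs_of_pos (by positivity : (0 : ℝ) < 2 * Real.pi), abs_div, abs_of_pos hq0]
    have h3 : |(k : ℝ)| / q ≤ 1 / 2 := by
      rw [div_le_div_iff₀ hq0 (by norm_num)]
      linarith
    calc 2 * Real.pi * (|(k : ℝ)| / q) ≤ 2 * Real.pi * (1 / 2) :=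
          mul_le_mul_of_nonneg_left h3 (by positivity)
      _ = Real.pi := by ring
  refine (Real.cos_le_one_sub_mul_cos_sq h2).trans ?_
  have h4 : 2 / Real.pi ^ 2 * (2 * Real.pi * ((k : ℝ) / q)) ^ 2 = 8 * |(k : ℝ)| ^ 2 / (q : ℝ) ^ 2 := by
    rw [sq_abs]
    field_simp
    ring
  rw [h4]
  have h5 : 8 / (q : ℝ) ^ 2 ≤ 8 * |(k : ℝ)| ^ 2 / (q : ℝ) ^ 2 := by
    apply div_le_div_of_nonneg_right _ (by positivity)
    nlinarith
  linarith

lemma two_points (a b : ℝ) (ha : 0 ≤ a) (hb : 0 ≤ b) (hab : a + b ≤ 1) (q : ℕ) (hq : 1 ≤ q) (u v : ℤ)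
    (huv : ¬ (q : ℤ) ∣ u - v) :
    ‖(a : ℂ) * e ((u : ℝ) / q) + (b : ℂ) * e ((v : ℝ) / q)‖ ≤ a + b - 8 * (a * b) / (q : ℝ) ^ 2 := by
  have hq0 : (0 : ℝ) < q := by exact_mod_cast hq
  have hq2 : 2 ≤ q := by
    by_contra h
    have : q = 1 := by omega
    rw [this] at huv
    exact huv (by simp)
  have hq2r : (2 : ℝ) ≤ q := by exact_mod_cast hq2
  have hc := cos_bound q hq (u - v) huv
  have e1 : (a : ℂ) * e ((u : ℝ) / q) + (b : ℂ) * e ((v : ℝ) / q) =
      e ((v : ℝ) / q) * ((a : ℂ) * e (((u - v : ℤ) : ℝ) / q) + b) := by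
    have h1 : e ((u : ℝ) / q) = e ((v : ℝ) / q) * e (((u - v : ℤ) : ℝ) / q) := by
      rw [← e_add]
      congr 1
      push_cast
      ring
    rw [h1]
    ring
  rw [e1, norm_mul, norm_e, one_mul]
  have h2 : ‖(a : ℂ) * e (((u - v : ℤ) : ℝ) / q) + b‖ ^ 2 =
      (a + b) ^ 2 - 2 * (a * b) * (1 - Real.cos (2 * Real.pi * (((u - v : ℤ) : ℝ) / q))) := by
    rw [Complex.sq_norm, Complex.normSq_apply]
    unfold e
    simp only [Complex.add_re, Complex.mul_re, Complex.ofReal_re, Complex.ofReal_im, Complex.add_im,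
      Complex.mul_im, zero_mul, sub_zero, add_zero]
    rw [Complex.exp_ofReal_mul_I_re, Complex.exp_ofReal_mul_I_im]
    have := Real.sin_sq_add_cos_sq (2 * Real.pi * (((u - v : ℤ) : ℝ) / q))
    linear_combination a ^ 2 * this
  have hab0 : 0 ≤ a * b := mul_nonneg ha hb
  have ht : 8 * (a * b) / (q : ℝ) ^ 2 ≤ 2 * (a * b) := by
    rw [div_le_iff₀ (by positivity)]
    have h4 : (4 : ℝ) ≤ (q : ℝ) ^ 2 := by nlinarith
    nlinarith
  have ht0 : 0 ≤ 8 * (a * b) / (q : ℝ) ^ 2 := by positivity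
  have hab2 : 2 * (a * b) ≤ a + b := by nlinarith
  have hR : 0 ≤ a + b - 8 * (a * b) / (q : ℝ) ^ 2 := by linarith
  apply le_of_sq_le_sq _ hR
  rw [h2]
  have h5 : 2 * (a * b) * (8 / (q : ℝ) ^ 2) ≤
      2 * (a * b) * (1 - Real.cos (2 * Real.pi * (((u - v : ℤ) : ℝ) / q))) :=
    mul_le_mul_of_nonneg_left (by linarith) (by positivity)
  have h6 : 2 * (a * b) * (8 / (q : ℝ) ^ 2) = 2 * (8 * (a * b) / (q : ℝ) ^ 2) := by ring
  rw [h6] at h5
  nlinarith

theorem cf_two {Ω : Type} [MeasurableSpace Ω] (μ : Measure Ω) [IsProbabilityMeasure μ] {d : ℕ}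
    (X : Ω → Fin d → ℤ) (hX : Measurable X) (x y : Fin d → ℤ) (q : ℕ) (hq : 1 ≤ q) (g : Fin d → ℤ)
    (hg : ¬ (q : ℤ) ∣ ∑ j, g j * (x j - y j)) :
    ‖cf μ X q g‖ ≤ 1 - 8 * (μ.real {ω | X ω = x} * μ.real {ω | X ω = y}) / (q : ℝ) ^ 2 := by
  classical
  obtain ⟨A, hA⟩ : ∃ A : Set Ω, A = {ω | X ω = x} := ⟨_, rfl⟩
  obtain ⟨B, hB⟩ : ∃ B : Set Ω, B = {ω | X ω = y} := ⟨_, rfl⟩
  rw [← hA, ← hB]
  have hAm : MeasurableSet A := by rw [hA]; exact hX (measurableSet_singleton x)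
  have hBm : MeasurableSet B := by rw [hB]; exact hX (measurableSet_singleton y)
  have hxy : x ≠ y := by
    rintro rfl
    apply hg
    simp
  have hd : Disjoint A B := by
    rw [Set.disjoint_left]
    intro ω h1 h2
    rw [hA] at h1
    rw [hB] at h2
    exact hxy (h1.symm.trans h2)
  obtain ⟨f, hf⟩ : ∃ f : Ω → ℂ, f = fun ω => e (∑ j, (g j : ℝ) * ((X ω j : ℝ) / q)) := ⟨_, rfl⟩
  have hfm : Measurable f := by
    rw [hf]
    exact (measurable_of_countable (fun v : Fin d → ℤ => e (∑ j, (g j : ℝ) * ((v j : ℝ) / q)))).comp hX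
  have hfn : ∀ ω, ‖f ω‖ ≤ 1 := fun ω => by rw [hf]; exact (norm_e _).le
  have hfi : Integrable f μ := Integrable.of_bound (C := 1) hfm.aestronglyMeasurable
    (Filter.Eventually.of_forall hfn)
  obtain ⟨u, hu⟩ : ∃ u : ℤ, u = ∑ j, g j * x j := ⟨_, rfl⟩
  obtain ⟨v, hv⟩ : ∃ v : ℤ, v = ∑ j, g j * y j := ⟨_, rfl⟩
  have hval : ∀ z : Fin d → ℤ, (∑ j, (g j : ℝ) * ((z j : ℝ) / q)) = ((∑ j, g j * z j : ℤ) : ℝ) / q := by
    intro z
    push_cast
    rw [sum_div]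
    exact sum_congr rfl fun j _ => by ring
  have hfA : ∫ ω in A, f ω ∂μ = (μ.real A : ℂ) * e ((u : ℝ) / q) := by
    have h1 : ∫ ω in A, f ω ∂μ = ∫ ω in A, e ((u : ℝ) / q) ∂μ := by
      refine setIntegral_congr_fun hAm fun ω hω => ?_
      rw [hA] at hω
      have : X ω = x := hω
      rw [hf]
      show e (∑ j, (g j : ℝ) * ((X ω j : ℝ) / q)) = _
      rw [this, hval, ← hu]
    rw [h1, setIntegral_const, Complex.real_smul]
  have hfB : ∫ ω in B, f ω ∂μ = (μ.real B : ℂ) * e ((v : ℝ) / q) := by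
    have h1 : ∫ ω in B, f ω ∂μ = ∫ ω in B, e ((v : ℝ) / q) ∂μ := by
      refine setIntegral_congr_fun hBm fun ω hω => ?_
      rw [hB] at hω
      have : X ω = y := hω
      rw [hf]
      show e (∑ j, (g j : ℝ) * ((X ω j : ℝ) / q)) = _
      rw [this, hval, ← hv]
    rw [h1, setIntegral_const, Complex.real_smul]
  have hab : μ.real (A ∪ B) = μ.real A + μ.real B := measureReal_union hd hBm
  have hle : μ.real A + μ.real B ≤ 1 := by rw [← hab]; exact measureReal_le_one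
  have hsplit : ∫ ω, f ω ∂μ = (∫ ω in A, f ω ∂μ + ∫ ω in B, f ω ∂μ) + ∫ ω in (A ∪ B)ᶜ, f ω ∂μ := by
    rw [← setIntegral_union hd hBm hfi.integrableOn hfi.integrableOn,
      integral_add_compl (hAm.union hBm) hfi]
  have hrest : ‖∫ ω in (A ∪ B)ᶜ, f ω ∂μ‖ ≤ 1 - (μ.real A + μ.real B) := by
    refine (norm_setIntegral_le_of_norm_le_const (C := 1) (measure_lt_top _ _)
      (fun x _ => hfn x)).trans ?_
    rw [one_mul, probReal_compl_eq_one_sub (hAm.union hBm), hab]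
  have huv : ¬ (q : ℤ) ∣ u - v := by
    have : u - v = ∑ j, g j * (x j - y j) := by
      rw [hu, hv, ← sum_sub_distrib]
      exact sum_congr rfl fun j _ => by ring
    rw [this]
    exact hg
  have h2 := two_points (μ.real A) (μ.real B) measureReal_nonneg measureReal_nonneg hle q hq u v huv
  have h3 : cf μ X q g = ∫ ω, f ω ∂μ := by rw [hf]; rfl
  rw [h3, hsplit, hfA, hfB]
  refine (norm_add_le _ _).trans ?_
  linarith

/-- the bound for the characteristic function of an aperiodic step -/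
theorem cf_gen {Ω : Type} [MeasurableSpace Ω] (μ : Measure Ω) [IsProbabilityMeasure μ] {d : ℕ}
    (X : Ω → Fin d → ℤ) (hX : Measurable X)
    (hgen : AddSubgroup.closure {z : Fin d → ℤ | ∃ x y : Fin d → ℤ, 0 < μ.real {ω | X ω = x} ∧
      0 < μ.real {ω | X ω = y} ∧ z = x - y} = ⊤) :
    ∃ c : ℝ, 0 < c ∧ ∀ q : ℕ, 1 ≤ q → ∀ g : Fin d → ℤ, (∃ j, ¬ (q : ℤ) ∣ g j) →
      ‖cf μ X q g‖ ≤ 1 - c / (q : ℝ) ^ 2 := by
  classical
  have hP : ∀ z : Fin d → ℤ, ∃ c : ℝ, 0 < c ∧ ∀ q : ℕ, 1 ≤ q → ∀ g : Fin d → ℤ,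
      ¬ (q : ℤ) ∣ ∑ j, g j * z j → ‖cf μ X q g‖ ≤ 1 - c / (q : ℝ) ^ 2 := by
    intro z
    have hz : z ∈ AddSubgroup.closure {z : Fin d → ℤ | ∃ x y : Fin d → ℤ, 0 < μ.real {ω | X ω = x} ∧
      0 < μ.real {ω | X ω = y} ∧ z = x - y} := by rw [hgen]; exact AddSubgroup.mem_top z
    induction hz using AddSubgroup.closure_induction with
    | mem z hz =>
      obtain ⟨x, y, hx, hy, rfl⟩ := hz
      refine ⟨8 * (μ.real {ω | X ω = x} * μ.real {ω | X ω = y}), by positivity, fun q hq g hg => ?_⟩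
      exact cf_two μ X hX x y q hq g hg
    | zero =>
      refine ⟨1, one_pos, fun q hq g hg => ?_⟩
      exact absurd (by simp) hg
    | add z w _ _ ihz ihw =>
      obtain ⟨c₁, hc₁, h1⟩ := ihz
      obtain ⟨c₂, hc₂, h2⟩ := ihw
      refine ⟨min c₁ c₂, lt_min hc₁ hc₂, fun q hq g hg => ?_⟩
      have hq0 : (0 : ℝ) < (q : ℝ) ^ 2 := by
        have : (0 : ℝ) < q := by exact_mod_cast hq
        positivity
      have h3 : ¬ (q : ℤ) ∣ ∑ j, g j * z j ∨ ¬ (q : ℤ) ∣ ∑ j, g j * w j := by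
        by_contra hcon
        push Not at hcon
        apply hg
        have : ∑ j, g j * (z + w) j = ∑ j, g j * z j + ∑ j, g j * w j := by
          rw [← sum_add_distrib]
          exact sum_congr rfl fun j _ => by rw [Pi.add_apply]; ring
        rw [this]
        exact dvd_add hcon.1 hcon.2
      rcases h3 with h3 | h3
      · have h4 : min c₁ c₂ / (q : ℝ) ^ 2 ≤ c₁ / (q : ℝ) ^ 2 :=
          div_le_div_of_nonneg_right (min_le_left _ _) hq0.le
        have := h1 q hq g h3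
        linarith
      · have h4 : min c₁ c₂ / (q : ℝ) ^ 2 ≤ c₂ / (q : ℝ) ^ 2 :=
          div_le_div_of_nonneg_right (min_le_right _ _) hq0.le
        have := h2 q hq g h3
        linarith
    | neg z _ ih =>
      obtain ⟨c, hc, h⟩ := ih
      refine ⟨c, hc, fun q hq g hg => h q hq g fun h2 => hg ?_⟩
      have : ∑ j, g j * (-z) j = -∑ j, g j * z j := by
        rw [← sum_neg_distrib]
        exact sum_congr rfl fun j _ => by rw [Pi.neg_apply]; ring
      rw [this]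
      exact h2.neg_right
  choose c hc h using fun j : Fin d => hP (Pi.single j 1)
  obtain ⟨c₀, hc₀, hc₀'⟩ : ∃ c₀ : ℝ, 0 < c₀ ∧ ∀ j, c₀ ≤ c j := by
    rcases isEmpty_or_nonempty (Fin d) with hem | hne
    · exact ⟨1, one_pos, fun j => (hem.false j).elim⟩
    · obtain ⟨j₀, _, hj₀⟩ := exists_min_image univ c univ_nonempty
      exact ⟨c j₀, hc j₀, fun j => hj₀ j (mem_univ j)⟩
  refine ⟨c₀, hc₀, fun q hq g hg => ?_⟩
  obtain ⟨j, hj⟩ := hg
  have hq0 : (0 : ℝ) < (q : ℝ) ^ 2 := by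
    have : (0 : ℝ) < q := by exact_mod_cast hq
    positivity
  have h1 := h j q hq g (by
    have : ∑ i, g i * (Pi.single j (1 : ℤ) : Fin d → ℤ) i = g j := by
      rw [Finset.sum_eq_single j]
      · simp
      · intro i _ hi
        rw [Pi.single_eq_of_ne hi, mul_zero]
      · simp
    rw [this]
    exact hj)
  have h2 : c₀ / (q : ℝ) ^ 2 ≤ c j / (q : ℝ) ^ 2 := div_le_div_of_nonneg_right (hc₀' j) hq0.le
  linarith

/-- the characteristic function of a sum of independent steps with weights -/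
theorem cf_prod {Ω : Type} [MeasurableSpace Ω] (μ : Measure Ω) [IsProbabilityMeasure μ] {d : ℕ}
    (X : ℕ → Ω → Fin d → ℤ) (hX : ∀ i, Measurable (X i)) (hind : iIndepFun X μ)
    (hid : ∀ i, μ.map (X i) = μ.map (X 0)) (q T : ℕ) (g : ℕ → Fin d → ℤ) :
    ∫ x, e (∑ i ∈ range T, ∑ j, (g i j : ℝ) * ((X i x j : ℝ) / q)) ∂μ =
      ∏ i ∈ range T, cf μ (X 0) q (g i) := by
  classical
  have hm : ∀ i : ℕ, Measurable (fun v : Fin d → ℤ => e (∑ j, (g i j : ℝ) * ((v j : ℝ) / q))) :=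
    fun i => measurable_of_countable _
  have h1 := (hind.precomp (g := fun i : Fin T => (i : ℕ)) Fin.val_injective).integral_fun_prod_comp
    (f := fun (i : Fin T) (v : Fin d → ℤ) => e (∑ j, (g i j : ℝ) * ((v j : ℝ) / q)))
    (fun i => (hX i).aemeasurable) (fun i => (hm i).aestronglyMeasurable)
  have h2 : ∀ x, e (∑ i ∈ range T, ∑ j, (g i j : ℝ) * ((X i x j : ℝ) / q)) =
      ∏ i : Fin T, e (∑ j, (g i j : ℝ) * ((X i x j : ℝ) / q)) := by
    intro x
    rw [e_sum, Finset.prod_range]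
  simp only [h2]
  rw [h1, Finset.prod_range]
  refine prod_congr rfl fun i _ => ?_
  unfold cf
  rw [← integral_map (hX 0).aemeasurable (hm i).aestronglyMeasurable, ← hid i,
    integral_map (hX i).aemeasurable (hm i).aestronglyMeasurable]

end Pool.Agent.X29.RW
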